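import Mathlib
import Pool.Agent.Y342.SK.Sym

/-! Hadamard matrices of order `2 w ^ i (w + 1)` from a symmetric core of order `w`. -/

set_option autoImplicit false

namespace Pool.Agent.H34CT

open Matrix Finset
open scoped Kronecker
open Pool.Agent.H108R3.Had (HasHad)
open Pool.Agent.Y342.SK

/-- a pair of commuting symmetric matrices with complementary supports and `M² = a`, `N² = b` -/
structure Pair (ι : Type) [Fintype ι] [DecidableEq ι] (a b : ℤ) where
  M : Matrix ι ι ℤ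
  N : Matrix ι ι ℤ
  hMT : Mᵀ = M
  hNT : Nᵀ = N
  hMM : M * M = a • (1 : Matrix ι ι ℤ)
  hNN : N * N = b • (1 : Matrix ι ι ℤ)
  hMN : M * N = N * M
  ent : ∀ x y, (M x y = 0 ∧ Sg (N x y)) ∨ (Sg (M x y) ∧ N x y = 0)

variable {w : ℕ} {B : Fin w → Fin w → ℤ}

/-- the core as a matrix -/
def Bm (B : Fin w → Fin w → ℤ) : Matrix (Fin w) (Fin w) ℤ := Matrix.of B

/-- the matrix of ones -/
def Jm (w : ℕ) : Matrix (Fin w) (Fin w) ℤ := Matrix.of fun _ _ => 1

theorem BmT (h : IsCoreG 1 B) : (Bm B)ᵀ = Bm B := by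
  ext x y
  simp only [Bm, transpose_apply, of_apply]
  rw [h.sym x y, one_mul]

theorem JmT : (Jm w)ᵀ = Jm w := by
  ext x y; simp [Jm]

theorem BB (h : IsCoreG 1 B) : Bm B * Bm B = (w : ℤ) • (1 : Matrix (Fin w) (Fin w) ℤ) - Jm w := by
  ext x y
  rw [Matrix.mul_apply, Matrix.sub_apply, Matrix.smul_apply, Matrix.one_apply]
  simp only [Bm, Jm, of_apply]
  have h1 := h.mul x y
  rw [Fintype.card_fin] at h1
  have h2 : ∑ z, B x z * B z y = ∑ z, B x z * B y z :=
    Finset.sum_congr rfl fun z _ => by rw [h.sym y z, one_mul]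
  rw [h2, h1]
  by_cases hxy : x = y <;> simp [hxy]

theorem BJ (h : IsCoreG 1 B) : Bm B * Jm w = 0 := by
  ext x y
  rw [Matrix.mul_apply]
  simp only [Bm, Jm, of_apply, mul_one, Matrix.zero_apply]
  exact h.row x

theorem JB (h : IsCoreG 1 B) : Jm w * Bm B = 0 := by
  have h1 := congrArg Matrix.transpose (BJ h)
  rwa [transpose_mul, BmT h, JmT, transpose_zero] at h1

theorem JJ : Jm w * Jm w = (w : ℤ) • Jm w := by
  ext x y
  rw [Matrix.mul_apply]
  simp [Jm]

/-- the step -/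
def Pair.step {ι : Type} [Fintype ι] [DecidableEq ι] {a b : ℤ} (P : Pair ι a b) (h : IsCoreG 1 B)
    (hab : a = b * w) : Pair (ι × Fin w) (a * w) a where
  M := P.M ⊗ₖ Bm B + P.N ⊗ₖ Jm w
  N := P.M ⊗ₖ (1 : Matrix (Fin w) (Fin w) ℤ)
  hMT := by
    rw [transpose_add, ← kroneckerMap_transpose, ← kroneckerMap_transpose, P.hMT, P.hNT, BmT h, JmT]
  hNT := by
    rw [← kroneckerMap_transpose, P.hMT, transpose_one]
  hMM := by
    rw [add_mul, mul_add, mul_add, ← mul_kronecker_mul, ← mul_kronecker_mul, ← mul_kronecker_mul,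
      ← mul_kronecker_mul, BB h, BJ h, JB h, JJ, P.hMM, P.hNN, kronecker_zero, kronecker_zero,
      add_zero, zero_add]
    ext p q
    obtain ⟨x, x'⟩ := p
    obtain ⟨y, y'⟩ := q
    simp only [Matrix.add_apply, kroneckerMap_apply, Matrix.smul_apply, Matrix.sub_apply,
      Matrix.one_apply, Jm, of_apply, smul_eq_mul, Prod.mk.injEq]
    by_cases h1 : x = y
    · by_cases h2 : x' = y'
      · simp only [h1, h2, if_true, and_self, mul_one]
        rw [hab]; ring
      · simp only [h1, h2, if_true, if_false, and_false, mul_one, mul_zero]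
        rw [hab]; ring
    · simp only [h1, if_false, false_and, mul_zero, zero_mul, add_zero]
  hNN := by
    rw [← mul_kronecker_mul, P.hMM, one_mul, smul_kronecker, one_kronecker_one]
  hMN := by
    rw [add_mul, mul_add, ← mul_kronecker_mul, ← mul_kronecker_mul, ← mul_kronecker_mul,
      ← mul_kronecker_mul, one_mul, one_mul, mul_one, mul_one, P.hMN]
  ent := by
    rintro ⟨x, x'⟩ ⟨y, y'⟩
    simp only [Matrix.add_apply, kroneckerMap_apply, Matrix.one_apply, Jm, Bm, of_apply, mul_one]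
    rcases P.ent x y with ⟨h1, h2⟩ | ⟨h1, h2⟩
    · right
      rw [h1, zero_mul, zero_add, zero_mul]
      exact ⟨h2, rfl⟩
    · rw [h2, add_zero]
      by_cases h3 : x' = y'
      · left
        rw [h3, h.diag, mul_zero, if_pos rfl, mul_one]
        exact ⟨rfl, h1⟩
      · right
        rw [if_neg h3, mul_zero]
        exact ⟨h1.mul (h.sign _ _ h3), rfl⟩

/-- the Hadamard matrix of a pair -/
theorem Pair.had {ι : Type} [Fintype ι] [DecidableEq ι] {a b : ℤ} (P : Pair ι a b) {l : ℕ}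
    (hl : Fintype.card ι = l) (hab : a + b = l) : HasHad (2 * l) := by
  let h' : Matrix (Fin 2) (Fin 2) ℤ := !![1, -1; -1, -1]
  have h'T : h'ᵀ = h' := by decide
  have h'h' : h' * h' = (2 : ℤ) • (1 : Matrix (Fin 2) (Fin 2) ℤ) := by decide
  have hh' : Pool.Agent.Y342.SK.Rel (-1) hh h' := by unfold Pool.Agent.Y342.SK.Rel; decide
  have h's : ∀ i j, Sg (h' i j) := by
    intro i j; fin_cases i <;> fin_cases j <;> simp [Sg, h']
  let M : Matrix (Fin 2 × ι) (Fin 2 × ι) ℤ := hh ⊗ₖ P.M + h' ⊗ₖ P.N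
  have hMT : Mᵀ = M := by
    change (hh ⊗ₖ P.M + h' ⊗ₖ P.N)ᵀ = _
    rw [transpose_add, ← kroneckerMap_transpose, ← kroneckerMap_transpose, P.hMT, P.hNT, hhT, h'T]
  have hrel : Pool.Agent.Y342.SK.Rel (-1) (hh ⊗ₖ P.M) (h' ⊗ₖ P.N) := by
    unfold Pool.Agent.Y342.SK.Rel at hh' ⊢
    rw [← mul_kronecker_mul, ← mul_kronecker_mul, hh', P.hMN, smul_kronecker]
  have hMM : M * M = ((2 * l : ℕ) : ℤ) • (1 : Matrix _ _ ℤ) := by
    change (hh ⊗ₖ P.M + h' ⊗ₖ P.N) * (hh ⊗ₖ P.M + h' ⊗ₖ P.N) = _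
    rw [sq_add hrel, ← mul_kronecker_mul, ← mul_kronecker_mul, P.hMM, P.hNN, hh_hh, h'h',
      smul_one_kron, smul_one_kron, ← add_smul]
    congr 1
    push_cast
    rw [← hab]; ring
  refine Pool.Agent.TH432.Had.had_reindex (ι := Fin 2 × ι) ?_ M ?_ ?_
  · rw [Fintype.card_prod, Fintype.card_fin, hl]
  · rintro ⟨i, x⟩ ⟨j, y⟩
    change Sg ((hh ⊗ₖ P.M + h' ⊗ₖ P.N) (i, x) (j, y))
    simp only [Matrix.add_apply, kroneckerMap_apply]
    rcases P.ent x y with ⟨h1, h2⟩ | ⟨h1, h2⟩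
    · rw [h1, mul_zero, zero_add]
      exact (h's _ _).mul h2
    · rw [h2, mul_zero, add_zero]
      exact (hh_sg _ _).mul h1
  · intro p q
    have h1 := congrFun (congrFun hMM p) q
    rw [Matrix.mul_apply, Matrix.smul_apply, Matrix.one_apply] at h1
    have h2 : ∑ k, M p k * M q k = ∑ k, M p k * M k q := by
      refine Finset.sum_congr rfl fun k _ => ?_
      have := congrFun (congrFun hMT k) q
      rw [transpose_apply] at this
      rw [this]
    rw [h2, h1]
    by_cases hpq : p = q <;> simp [hpq]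

/-- the symmetric conference matrix of a symmetric core, as a pair -/
theorem exists_base (h : IsCoreG 1 B) : Nonempty (Pair (Fin (w + 1)) w 1) := by
  have hs : ∀ x y, B y x = B x y := fun x y => by rw [h.sym x y, one_mul]
  let C : Matrix (Fin (w + 1)) (Fin (w + 1)) ℤ :=
    Matrix.of (Fin.cons (Fin.cons 0 (fun _ => 1)) (fun x => Fin.cons 1 (fun y => B x y)))
  have c00 : C 0 0 = 0 := rfl
  have c01 : ∀ y : Fin w, C 0 y.succ = 1 := fun y => rfl
  have c10 : ∀ y : Fin w, C y.succ 0 = 1 := fun y => rfl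
  have c11 : ∀ x y : Fin w, C x.succ y.succ = B x y := fun x y => rfl
  have hCd : ∀ x, C x x = 0 := by
    intro x
    refine Fin.cases ?_ (fun x => ?_) x
    · exact c00
    · rw [c11]; exact h.diag x
  have hCs : ∀ x y, x ≠ y → Sg (C x y) := by
    intro x y
    refine Fin.cases ?_ (fun x => ?_) x <;> refine Fin.cases ?_ (fun y => ?_) y
    · intro h0; exact absurd rfl h0
    · intro _; rw [c01]; left; rfl
    · intro _; rw [c10]; left; rfl
    · intro h0; rw [c11]; exact h.sign _ _ fun h' => h0 (by rw [h'])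
  have hCT : Cᵀ = C := by
    ext x y
    rw [transpose_apply]
    refine Fin.cases ?_ (fun x => ?_) x <;> refine Fin.cases ?_ (fun y => ?_) y
    · rfl
    · rw [c01, c10]
    · rw [c01, c10]
    · rw [c11, c11, hs]
  have hCC : C * C = (w : ℤ) • (1 : Matrix (Fin (w + 1)) (Fin (w + 1)) ℤ) := by
    ext x y
    rw [Matrix.mul_apply, Matrix.smul_apply, Matrix.one_apply, Fin.sum_univ_succ]
    refine Fin.cases ?_ (fun x => ?_) x <;> refine Fin.cases ?_ (fun y => ?_) y
    · simp only [c00, c01, c10]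
      try simp
    · simp only [c00, c01, c11, one_mul, zero_mul, zero_add]
      rw [if_neg (Fin.succ_ne_zero y).symm, Finset.sum_congr rfl fun z _ => hs y z, h.row]
      try simp
    · simp only [c00, c10, c11, mul_one, mul_zero, zero_add]
      rw [if_neg (Fin.succ_ne_zero x), h.row]
      try simp
    · simp only [c10, c01, c11, mul_one]
      rw [Finset.sum_congr rfl fun z _ => by rw [hs y z], h.mul, Fintype.card_fin]
      by_cases hxy : x = y
      · rw [if_pos hxy, if_pos (by rw [hxy])]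
        try simp
      · rw [if_neg hxy, if_neg fun h' => hxy (Fin.succ_injective _ h')]
        try simp
  refine ⟨⟨C, 1, hCT, transpose_one, hCC, by rw [one_mul, one_smul], by rw [mul_one, one_mul], ?_⟩⟩
  intro x y
  by_cases hxy : x = y
  · left
    subst hxy
    exact ⟨hCd x, by rw [Matrix.one_apply_eq]; left; rfl⟩
  · right
    exact ⟨hCs x y hxy, Matrix.one_apply_ne hxy⟩

theorem exists_pair (h : IsCoreG 1 B) (i : ℕ) : ∃ (ι : Type) (_ : Fintype ι) (_ : DecidableEq ι),
    Fintype.card ι = w ^ i * (w + 1) ∧ Nonempty (Pair ι ((w : ℤ) ^ (i + 1)) ((w : ℤ) ^ i)) := by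
  induction i with
  | zero =>
    refine ⟨Fin (w + 1), inferInstance, inferInstance, by rw [Fintype.card_fin]; ring, ?_⟩
    rw [zero_add, pow_one, pow_zero]
    exact exists_base h
  | succ i ih =>
    obtain ⟨ι, i1, i2, hc, ⟨P⟩⟩ := ih
    refine ⟨ι × Fin w, inferInstance, inferInstance, ?_, ?_⟩
    · rw [Fintype.card_prod, hc, Fintype.card_fin]; ring
    · have := P.step h (by ring)
      rw [← pow_succ] at this
      exact ⟨this⟩

/-- Hadamard matrices of order `2 w ^ i (w + 1)` from a symmetric core of order `w` -/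
theorem had_tower (h : IsCoreG 1 B) (i : ℕ) : HasHad (2 * (w ^ i * (w + 1))) := by
  obtain ⟨ι, i1, i2, hc, ⟨P⟩⟩ := exists_pair h i
  refine P.had hc ?_
  push_cast
  ring

open Pool.Agent.W851.Had (tow)

theorem main : ∃ C : ℕ, 2 ≤ C ∧ ∀ n v t i j : ℕ, v ≤ tow n → 2 ^ C ^ (n + 1) ≤ t →
    2 ^ t ∣ v + 1 → HasHad (2 * ((v ^ 2 ^ (j + 1)) ^ i * (v ^ 2 ^ (j + 1) + 1))) := by
  obtain ⟨C, hC, h⟩ := main_skew
  refine ⟨C, hC, fun n v t i j hv ht hd => ?_⟩
  obtain ⟨S, hS⟩ := core_of h hv ht hd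
  obtain ⟨B, hB⟩ := sym_core hS j
  exact had_tower hB i

end Pool.Agent.H34CT
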